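import Mathlib

set_option autoImplicit false
set_option linter.unusedSectionVars false

/-! Consensus times of the `ℓ^p`-energy dynamics: the comparison
`E τ_{p₂}(ε) ≤ C E τ_{p₁}(ε)` for `p₁ < p₂` fails for every constant `C`. -/

namespace Pool.Agent.Results.MP_7677b2_pr.NoComparison

open Finset
open scoped ENNReal

section defs

variable {V : Type} [Fintype V] [DecidableEq V]

open Classical in
/-- `Ψ(y) = ∑_{w ∼ v} |y - f w| ^ p` -/
noncomputable def energy (p : ℝ) (G : SimpleGraph V) (f : V → ℝ) (v : V) (y : ℝ) : ℝ :=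
  ∑ w, if G.Adj v w then |y - f w| ^ p else 0

/-- the update at `v`: the value at `v` is replaced by a minimiser of the energy -/
noncomputable def upd (p : ℝ) (G : SimpleGraph V) (f : V → ℝ) (v : V) : V → ℝ :=
  Function.update f v (Classical.epsilon fun y => ∀ z, energy p G f v y ≤ energy p G f v z)

/-- the oscillation `max f - min f` -/
noncomputable def osc (f : V → ℝ) : ℝ := (⨆ v, f v) - ⨅ v, f v

/-- the profile after the first `s` updates when the updated vertices are `ω 0, ω 1, …` -/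
noncomputable def profile (p : ℝ) (G : SimpleGraph V) (f : V → ℝ) {t : ℕ} (ω : Fin t → V)
    (s : ℕ) : V → ℝ :=
  ((List.ofFn ω).take s).foldl (upd p G) f

open Classical in
/-- `P (τ_p(ε) > t)` when the updated vertices are independent and uniform: the proportion of the
sequences of `t` vertices along which the oscillation stays above `ε` at all times `0, …, t` -/
noncomputable def tail (p : ℝ) (G : SimpleGraph V) (ε : ℝ) (t : ℕ) (f : V → ℝ) : ℝ :=
  ((Finset.univ.filter fun ω : Fin t → V => ∀ s ≤ t, ε < osc (profile p G f ω s)).card : ℝ) /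
    (Fintype.card V : ℝ) ^ t

/-- `E τ_p(ε) = ∑_{t ≥ 0} P (τ_p(ε) > t)`, possibly infinite -/
noncomputable def expTime (p : ℝ) (G : SimpleGraph V) (ε : ℝ) (f : V → ℝ) : ℝ≥0∞ :=
  ∑' t : ℕ, ENNReal.ofReal (tail p G ε t f)

end defs

section recursion

variable {V : Type} [Fintype V] [DecidableEq V] (p : ℝ) (G : SimpleGraph V) (ε : ℝ)

lemma tail_nonneg (t : ℕ) (f : V → ℝ) : 0 ≤ tail p G ε t f := by
  unfold tail; positivity

lemma tail_zero (f : V → ℝ) : tail p G ε 0 f = if ε < osc f then 1 else 0 := by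
  classical
  unfold tail
  rw [pow_zero, div_one]
  by_cases h : ε < osc f
  · rw [if_pos h, Finset.filter_true_of_mem]
    · simp
    · intro ω _ s hs
      have : s = 0 := by omega
      rw [this]
      simpa [profile] using h
  · rw [if_neg h, Finset.filter_false_of_mem]
    · simp
    · intro ω _ hh
      have := hh 0 le_rfl
      rw [profile] at this
      simp only [List.take_zero, List.foldl_nil] at this
      exact h this

lemma tail_succ (t : ℕ) (f : V → ℝ) : tail p G ε (t + 1) f =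
    if ε < osc f then (∑ v, tail p G ε t (upd p G f v)) / (Fintype.card V : ℝ) else 0 := by
  classical
  unfold tail
  have hprof : ∀ (v : V) (ω : Fin t → V) (s : ℕ),
      profile p G f (Fin.cons v ω : Fin (t + 1) → V) (s + 1) = profile p G (upd p G f v) ω s := by
    intro v ω s
    unfold profile
    rw [List.ofFn_succ]
    simp
  have hprof0 : ∀ (ω : Fin (t + 1) → V), profile p G f ω 0 = f := by
    intro ω; unfold profile; simp
  by_cases h : ε < osc f
  · rw [if_pos h, pow_succ, ← div_div, ← Finset.sum_div]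
    congr 2
    have h1 : (Finset.univ.filter fun ω : Fin (t + 1) → V =>
        ∀ s ≤ t + 1, ε < osc (profile p G f ω s)).card =
        ∑ v, (Finset.univ.filter fun ω : Fin t → V =>
          ∀ s ≤ t, ε < osc (profile p G (upd p G f v) ω s)).card := by
      simp only [Finset.card_filter]
      rw [← (Fin.consEquiv (fun _ : Fin (t + 1) => V)).sum_comp, Fintype.sum_prod_type]
      refine Finset.sum_congr rfl fun v _ => Finset.sum_congr rfl fun ω _ => ?_
      have e : (Fin.consEquiv (fun _ : Fin (t + 1) => V)) (v, ω) = Fin.cons v ω := rfl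
      rw [e]
      refine if_congr ?_ rfl rfl
      constructor
      · intro hh s hs
        have := hh (s + 1) (by omega)
        rwa [hprof] at this
      · intro hh s hs
        cases s with
        | zero => rw [hprof0]; exact h
        | succ s => rw [hprof]; exact hh s (by omega)
    rw [h1]; push_cast; rfl
  · rw [if_neg h, Finset.filter_false_of_mem]
    · simp
    · intro ω _ hh
      have := hh 0 (by omega)
      rw [hprof0] at this
      exact h this

end recursion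

/-! ### the oscillation -/

section osc

variable {V : Type} [Fintype V] [DecidableEq V] [Nonempty V]

lemma osc_ge (f : V → ℝ) (a b : V) : f a - f b ≤ osc f := by
  unfold osc
  have h1 : f a ≤ ⨆ v, f v := le_ciSup (Set.finite_range f).bddAbove a
  have h2 : ⨅ v, f v ≤ f b := ciInf_le (Set.finite_range f).bddBelow b
  linarith

lemma osc_le (f : V → ℝ) (lo hi : ℝ) (h : ∀ v, lo ≤ f v ∧ f v ≤ hi) : osc f ≤ hi - lo := by
  unfold osc
  have h1 : ⨆ v, f v ≤ hi := ciSup_le fun v => (h v).2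
  have h2 : lo ≤ ⨅ v, f v := le_ciInf fun v => (h v).1
  linarith

lemma osc_eq (f : V → ℝ) : ∃ a b : V, osc f = f a - f b := by
  obtain ⟨a, ha⟩ := exists_eq_ciSup_of_finite (f := f)
  obtain ⟨b, hb⟩ := exists_eq_ciInf_of_finite (f := f)
  exact ⟨a, b, by unfold osc; rw [ha, hb]⟩

end osc

/-! ### the complete graph, `p = 2` -/

section two

variable {m : ℕ}

lemma energy_top (p : ℝ) (f : Fin (m + 1) → ℝ) (v : Fin (m + 1)) (y : ℝ) :
    energy p ⊤ f v y = ∑ w ∈ Finset.univ.erase v, |y - f w| ^ p := by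
  unfold energy
  rw [← Finset.sum_subset (Finset.erase_subset v Finset.univ) (fun w _ hw => ?_)]
  · refine Finset.sum_congr rfl fun w hw => ?_
    rw [if_pos]
    rw [SimpleGraph.top_adj]
    exact (Finset.ne_of_mem_erase hw).symm
  · have hwv : w = v := by
      by_contra h
      exact hw (Finset.mem_erase.2 ⟨h, Finset.mem_univ _⟩)
    rw [if_neg]
    rw [SimpleGraph.top_adj]
    exact fun h => h hwv.symm

/-- the mean of the other values -/
noncomputable def mu (f : Fin (m + 1) → ℝ) (v : Fin (m + 1)) : ℝ := ((∑ w, f w) - f v) / m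

lemma energy_two (hm : 1 ≤ m) (f : Fin (m + 1) → ℝ) (v : Fin (m + 1)) (y : ℝ) :
    energy 2 ⊤ f v y = energy 2 ⊤ f v (mu f v) + m * (y - mu f v) ^ 2 := by
  have hm' : (m : ℝ) ≠ 0 := by
    have : 0 < m := hm
    positivity
  have h1 : ∀ z : ℝ, energy 2 ⊤ f v z =
      m * z ^ 2 - 2 * z * ((∑ w, f w) - f v) + ∑ w ∈ Finset.univ.erase v, f w ^ 2 := by
    intro z
    rw [energy_top]
    have e1 : ∀ w ∈ Finset.univ.erase v, |z - f w| ^ (2 : ℝ) = z ^ 2 - 2 * z * f w + f w ^ 2 := by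
      intro w _
      rw [Real.rpow_two, sq_abs]; ring
    rw [Finset.sum_congr rfl e1, Finset.sum_add_distrib, Finset.sum_sub_distrib,
      Finset.sum_const, Finset.card_erase_of_mem (Finset.mem_univ v), Finset.card_univ,
      Fintype.card_fin, ← Finset.mul_sum, Finset.sum_erase_eq_sub (Finset.mem_univ v)]
    simp
  rw [h1 y, h1 (mu f v)]
  unfold mu
  field_simp
  ring

lemma upd_two (hm : 1 ≤ m) (f : Fin (m + 1) → ℝ) (v : Fin (m + 1)) :
    upd 2 ⊤ f v = Function.update f v (mu f v) := by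
  unfold upd
  congr 1
  have hm' : (0 : ℝ) < m := by exact_mod_cast hm
  have hex : ∃ y, ∀ z, energy 2 ⊤ f v y ≤ energy 2 ⊤ f v z := by
    refine ⟨mu f v, fun z => ?_⟩
    rw [energy_two hm f v z]
    nlinarith [sq_nonneg (z - mu f v)]
  have h1 := Classical.epsilon_spec hex
  set y := Classical.epsilon fun y => ∀ z, energy 2 ⊤ f v y ≤ energy 2 ⊤ f v z with hy
  have h2 := h1 (mu f v)
  rw [energy_two hm f v y] at h2
  have h3 : (m : ℝ) * (y - mu f v) ^ 2 ≤ 0 := by linarith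
  have h4 : (y - mu f v) ^ 2 ≤ 0 := by
    by_contra h
    push Not at h
    have := mul_pos hm' h
    linarith
  have h5 : (y - mu f v) ^ 2 = 0 := le_antisymm h4 (sq_nonneg _)
  have h6 : y - mu f v = 0 := by simpa using h5
  linarith

/-- the sum of squared deviations from the mean -/
noncomputable def SS (f : Fin (m + 1) → ℝ) : ℝ := ∑ w, (f w - (∑ u, f u) / (m + 1)) ^ 2

lemma SS_eq (f : Fin (m + 1) → ℝ) : SS f = ∑ w, f w ^ 2 - (∑ w, f w) ^ 2 / (m + 1) := by
  unfold SS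
  have e : ∀ w, (f w - (∑ u, f u) / ((m : ℝ) + 1)) ^ 2 =
      f w ^ 2 - 2 * ((∑ u, f u) / (m + 1)) * f w + ((∑ u, f u) / (m + 1)) ^ 2 := by
    intro w; ring
  rw [Finset.sum_congr rfl fun w _ => e w, Finset.sum_add_distrib, Finset.sum_sub_distrib,
    ← Finset.mul_sum, Finset.sum_const, Finset.card_univ, Fintype.card_fin, nsmul_eq_mul]
  push_cast
  field_simp
  ring

lemma SS_nonneg (f : Fin (m + 1) → ℝ) : 0 ≤ SS f := Finset.sum_nonneg fun _ _ => sq_nonneg _

lemma SS_le (f : Fin (m + 1) → ℝ) (hf : ∀ w, 0 ≤ f w ∧ f w ≤ 1) : SS f ≤ m + 1 := by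
  rw [SS_eq]
  have h1 : ∑ w, f w ^ 2 ≤ ∑ _w : Fin (m + 1), (1 : ℝ) :=
    Finset.sum_le_sum fun w _ => by nlinarith [(hf w).1, (hf w).2]
  rw [Finset.sum_const, Finset.card_univ, Fintype.card_fin, nsmul_eq_mul, mul_one] at h1
  push_cast at h1
  have h2 : 0 ≤ (∑ w, f w) ^ 2 / ((m : ℝ) + 1) := by positivity
  linarith

lemma sum_update (f : Fin (m + 1) → ℝ) (v : Fin (m + 1)) (y : ℝ) :
    ∑ w, (Function.update f v y) w = (∑ w, f w) - f v + y := by
  rw [← Finset.add_sum_erase _ _ (Finset.mem_univ v), ← Finset.add_sum_erase _ f (Finset.mem_univ v),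
    Function.update_self]
  have : ∑ w ∈ Finset.univ.erase v, (Function.update f v y) w = ∑ w ∈ Finset.univ.erase v, f w :=
    Finset.sum_congr rfl fun w hw => Function.update_of_ne (Finset.ne_of_mem_erase hw) _ _
  rw [this]; ring

lemma sum_update_sq (f : Fin (m + 1) → ℝ) (v : Fin (m + 1)) (y : ℝ) :
    ∑ w, (Function.update f v y) w ^ 2 = (∑ w, f w ^ 2) - f v ^ 2 + y ^ 2 := by
  rw [← Finset.add_sum_erase _ _ (Finset.mem_univ v),
    ← Finset.add_sum_erase _ (fun w => f w ^ 2) (Finset.mem_univ v), Function.update_self]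
  have : ∑ w ∈ Finset.univ.erase v, (Function.update f v y) w ^ 2 =
      ∑ w ∈ Finset.univ.erase v, f w ^ 2 :=
    Finset.sum_congr rfl fun w hw => by
      rw [Function.update_of_ne (Finset.ne_of_mem_erase hw)]
  rw [this]; ring

lemma SS_upd (hm : 1 ≤ m) (f : Fin (m + 1) → ℝ) (v : Fin (m + 1)) :
    SS (upd 2 ⊤ f v) = SS f - (f v - (∑ u, f u) / (m + 1)) ^ 2 * ((m + 1) / m) := by
  have hm' : (m : ℝ) ≠ 0 := by
    have : 0 < m := hm
    positivity
  rw [upd_two hm, SS_eq, SS_eq, sum_update, sum_update_sq]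
  unfold mu
  field_simp
  ring

lemma SS_avg (hm : 1 ≤ m) (f : Fin (m + 1) → ℝ) :
    (∑ v, SS (upd 2 ⊤ f v)) / ((m : ℝ) + 1) = SS f * (1 - 1 / m) := by
  have hm' : (m : ℝ) ≠ 0 := by
    have : 0 < m := hm
    positivity
  rw [Finset.sum_congr rfl fun v _ => SS_upd hm f v, Finset.sum_sub_distrib, ← Finset.sum_mul,
    Finset.sum_const, Finset.card_univ, Fintype.card_fin, nsmul_eq_mul]
  have : ∑ v, (f v - (∑ u, f u) / ((m : ℝ) + 1)) ^ 2 = SS f := rfl
  rw [this]
  push_cast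
  field_simp

lemma one_le_SS (f : Fin (m + 1) → ℝ) (h : 1 / 4 < osc f) : 1 ≤ 32 * SS f := by
  obtain ⟨a, b, hab⟩ := osc_eq f
  rw [hab] at h
  have hne : a ≠ b := by
    rintro rfl
    norm_num at h
  set c : ℝ := (∑ u, f u) / (m + 1) with hc
  have h1 : (f a - c) ^ 2 + (f b - c) ^ 2 ≤ SS f := by
    unfold SS
    rw [← Finset.sum_pair (f := fun w => (f w - c) ^ 2) hne]
    exact Finset.sum_le_sum_of_subset_of_nonneg (Finset.subset_univ _) fun _ _ _ => sq_nonneg _
  have h2 : (f a - f b) ^ 2 ≤ 2 * ((f a - c) ^ 2 + (f b - c) ^ 2) := by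
    nlinarith [sq_nonneg ((f a - c) + (f b - c))]
  have h3 : (1 / 4 : ℝ) ^ 2 ≤ (f a - f b) ^ 2 := pow_le_pow_left₀ (by norm_num) h.le 2
  nlinarith

lemma tail_two_le (hm : 1 ≤ m) (t : ℕ) : ∀ f : Fin (m + 1) → ℝ,
    tail 2 ⊤ (1 / 4) t f ≤ 32 * SS f * (1 - 1 / m) ^ t := by
  have hm' : (1 : ℝ) ≤ m := by exact_mod_cast hm
  have hq : (0 : ℝ) ≤ 1 - 1 / m := by
    have : 1 / (m : ℝ) ≤ 1 := by rw [div_le_one (by linarith)]; exact hm'
    linarith
  induction t with
  | zero =>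
    intro f
    rw [tail_zero, pow_zero, mul_one]
    split_ifs with h
    · exact one_le_SS f h
    · have := SS_nonneg f; positivity
  | succ t ih =>
    intro f
    rw [tail_succ]
    split_ifs with h
    · rw [Fintype.card_fin]
      push_cast
      have h1 : (∑ v, tail 2 ⊤ (1 / 4) t (upd 2 ⊤ f v)) / ((m : ℝ) + 1) ≤
          (∑ v, 32 * SS (upd 2 ⊤ f v) * (1 - 1 / m) ^ t) / ((m : ℝ) + 1) := by
        refine div_le_div_of_nonneg_right (Finset.sum_le_sum fun v _ => ih _) (by positivity)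
      refine h1.trans (le_of_eq ?_)
      have h2 := SS_avg hm f
      have h3 : (∑ v, 32 * SS (upd 2 ⊤ f v) * (1 - 1 / (m : ℝ)) ^ t) / ((m : ℝ) + 1) =
          32 * (1 - 1 / (m : ℝ)) ^ t * ((∑ v, SS (upd 2 ⊤ f v)) / ((m : ℝ) + 1)) := by
        rw [Finset.sum_div, Finset.sum_div, Finset.mul_sum]
        exact Finset.sum_congr rfl fun v _ => by ring
      rw [h3, h2]; ring
    · have := SS_nonneg f; positivity

/-- partial sums of the tail -/
noncomputable def PS (T : ℕ) (f : Fin (m + 1) → ℝ) : ℝ :=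
  ∑ t ∈ Finset.range T, tail 2 ⊤ (1 / 4) t f

lemma PS_nonneg (T : ℕ) (f : Fin (m + 1) → ℝ) : 0 ≤ PS T f :=
  Finset.sum_nonneg fun _ _ => tail_nonneg _ _ _ _ _

lemma PS_le (hm : 1 ≤ m) (T : ℕ) (f : Fin (m + 1) → ℝ) : PS T f ≤ 32 * SS f * m := by
  have hm' : (1 : ℝ) ≤ m := by exact_mod_cast hm
  have hq : (0 : ℝ) ≤ 1 - 1 / m := by
    have : 1 / (m : ℝ) ≤ 1 := by rw [div_le_one (by linarith)]; exact hm'
    linarith
  have hq1 : (1 : ℝ) - 1 / m < 1 := by
    have : 0 < 1 / (m : ℝ) := by positivity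
    linarith
  have h1 : PS T f ≤ ∑ t ∈ Finset.range T, 32 * SS f * (1 - 1 / (m : ℝ)) ^ t :=
    Finset.sum_le_sum fun t _ => tail_two_le hm t f
  refine h1.trans ?_
  rw [← Finset.mul_sum]
  refine mul_le_mul_of_nonneg_left ?_ (by have := SS_nonneg f; positivity)
  have h2 := (summable_geometric_of_lt_one hq hq1).sum_le_tsum (Finset.range T)
    (fun i _ => pow_nonneg hq i)
  rw [tsum_geometric_of_lt_one hq hq1] at h2
  refine h2.trans (le_of_eq ?_)
  field_simp
  ring

lemma PS_of_osc_le (T : ℕ) (f : Fin (m + 1) → ℝ) (h : osc f ≤ 1 / 4) : PS T f = 0 := by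
  unfold PS
  refine Finset.sum_eq_zero fun t _ => ?_
  cases t with
  | zero => rw [tail_zero, if_neg (not_lt.2 h)]
  | succ t => rw [tail_succ, if_neg (not_lt.2 h)]

lemma PS_succ (T : ℕ) (f : Fin (m + 1) → ℝ) :
    PS (T + 1) f ≤ 1 + (∑ v, PS T (upd 2 ⊤ f v)) / ((m : ℝ) + 1) := by
  by_cases h : 1 / 4 < osc f
  · unfold PS
    rw [Finset.sum_range_succ', tail_zero, if_pos h, add_comm]
    refine add_le_add le_rfl (le_of_eq ?_)
    simp only [tail_succ, if_pos h, Fintype.card_fin]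
    push_cast
    rw [← Finset.sum_div, Finset.sum_comm]
  · rw [PS_of_osc_le _ _ (not_lt.1 h)]
    have : 0 ≤ (∑ v, PS T (upd 2 ⊤ f v)) / ((m : ℝ) + 1) :=
      div_nonneg (Finset.sum_nonneg fun v _ => PS_nonneg _ _) (by positivity)
    linarith

/-- profiles in which the vertex `0` has not been updated during the first `j` steps -/
def Age (j : ℕ) (f : Fin (m + 1) → ℝ) : Prop :=
  f 0 = 1 ∧ (∀ w, w ≠ 0 → 0 ≤ f w ∧ f w ≤ (((m : ℝ) + 1) / m) ^ j / m) ∧
    ∑ w, f w ≤ (((m : ℝ) + 1) / m) ^ j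

lemma Age_upd (hm : 1 ≤ m) (j : ℕ) (f : Fin (m + 1) → ℝ) (h : Age j f) (v : Fin (m + 1))
    (hv : v ≠ 0) : Age (j + 1) (upd 2 ⊤ f v) := by
  obtain ⟨h0, h1, h2⟩ := h
  have hm' : (1 : ℝ) ≤ m := by exact_mod_cast hm
  have hm0 : (0 : ℝ) < m := by linarith
  rw [upd_two hm]
  set q : ℝ := ((m : ℝ) + 1) / m with hq
  have hq1 : 1 ≤ q := by rw [hq, le_div_iff₀ hm0]; linarith
  have hqe : q = 1 + 1 / m := by rw [hq]; field_simp
  have hqj : q ^ j ≤ q ^ (j + 1) := pow_le_pow_right₀ hq1 (Nat.le_succ j)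
  have hv1 := h1 v hv
  have hmu0 : 0 ≤ mu f v := by
    unfold mu
    have : f v ≤ ∑ w, f w := by
      refine Finset.single_le_sum (f := f) (fun w _ => ?_) (Finset.mem_univ v)
      by_cases hw : w = 0
      · rw [hw, h0]; norm_num
      · exact (h1 w hw).1
    exact div_nonneg (by linarith) hm0.le
  have hmu1 : mu f v ≤ q ^ j / m := by
    unfold mu
    exact div_le_div_of_nonneg_right (by linarith) hm0.le
  refine ⟨?_, fun w hw => ?_, ?_⟩
  · rw [Function.update_of_ne hv.symm]; exact h0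
  · by_cases hwv : w = v
    · rw [hwv, Function.update_self]
      refine ⟨hmu0, hmu1.trans ?_⟩
      exact div_le_div_of_nonneg_right hqj hm0.le
    · rw [Function.update_of_ne hwv]
      refine ⟨(h1 w hw).1, (h1 w hw).2.trans ?_⟩
      exact div_le_div_of_nonneg_right hqj hm0.le
  · rw [sum_update]
    have h3 : q ^ (j + 1) = q ^ j + q ^ j / m := by
      rw [pow_succ, hqe]; ring
    rw [h3]
    linarith [hv1.1]

lemma Age_upd_zero (hm : 1 ≤ m) (j : ℕ) (f : Fin (m + 1) → ℝ) (h : Age j f)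
    (hj : (((m : ℝ) + 1) / m) ^ j ≤ m / 4) : osc (upd 2 ⊤ f 0) ≤ 1 / 4 := by
  obtain ⟨h0, h1, h2⟩ := h
  have hm' : (1 : ℝ) ≤ m := by exact_mod_cast hm
  have hm0 : (0 : ℝ) < m := by linarith
  rw [upd_two hm]
  have hb : (((m : ℝ) + 1) / m) ^ j / m ≤ 1 / 4 := by
    rw [div_le_iff₀ hm0]; linarith
  have h3 : ∀ w, 0 ≤ (Function.update f 0 (mu f 0)) w ∧ (Function.update f 0 (mu f 0)) w ≤ 1 / 4 := by
    intro w
    by_cases hw : w = 0
    · rw [hw, Function.update_self]
      unfold mu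
      have h4 : f 0 ≤ ∑ w, f w := by
        refine Finset.single_le_sum (f := f) (fun w _ => ?_) (Finset.mem_univ 0)
        by_cases hw : w = 0
        · rw [hw, h0]; norm_num
        · exact (h1 w hw).1
      refine ⟨div_nonneg (by linarith) hm0.le, ?_⟩
      refine le_trans ?_ hb
      refine div_le_div_of_nonneg_right ?_ hm0.le
      rw [h0]; linarith
    · rw [Function.update_of_ne hw]
      exact ⟨(h1 w hw).1, (h1 w hw).2.trans hb⟩
  have := osc_le _ 0 (1 / 4) h3
  linarith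

/-- expected remaining time, `k` steps before the age `L + 1` -/
lemma PS_age (hm : 4 ≤ m) (L : ℕ) (hL : (((m : ℝ) + 1) / m) ^ L ≤ m / 4) (k : ℕ) :
    ∀ (j : ℕ), j + k = L + 1 → ∀ f : Fin (m + 1) → ℝ, Age j f → ∀ T : ℕ,
      PS T f ≤ ((m : ℝ) + 1) + (m / ((m : ℝ) + 1)) ^ k * (32 * ((m : ℝ) + 1) * m) := by
  have hm1 : 1 ≤ m := by omega
  have hm' : (4 : ℝ) ≤ m := by exact_mod_cast hm
  have hm0 : (0 : ℝ) < m := by linarith
  have hq1 : 1 ≤ ((m : ℝ) + 1) / m := by rw [le_div_iff₀ hm0]; linarith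
  induction k with
  | zero =>
    intro j hj f hf T
    have hjL : j = L + 1 := by omega
    have hb : (((m : ℝ) + 1) / m) ^ j / m ≤ 1 := by
      rw [hjL, pow_succ, div_le_iff₀ hm0]
      have h2 : ((m : ℝ) + 1) / m ≤ 2 := by rw [div_le_iff₀ hm0]; linarith
      have h3 : 0 ≤ (((m : ℝ) + 1) / m) ^ L := by positivity
      nlinarith
    have h01 : ∀ w, 0 ≤ f w ∧ f w ≤ 1 := by
      intro w
      by_cases hw : w = 0
      · rw [hw, hf.1]; norm_num
      · exact ⟨(hf.2.1 w hw).1, (hf.2.1 w hw).2.trans hb⟩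
    have h1 := PS_le hm1 T f
    have h2 := SS_le f h01
    rw [pow_zero, one_mul]
    have h3 : 32 * SS f * m ≤ 32 * ((m : ℝ) + 1) * m := by
      refine mul_le_mul_of_nonneg_right ?_ hm0.le
      linarith
    linarith
  | succ k ih =>
    intro j hj f hf T
    have hpos : 0 ≤ (m / ((m : ℝ) + 1)) ^ k * (32 * ((m : ℝ) + 1) * m) := by positivity
    cases T with
    | zero =>
      unfold PS
      rw [Finset.sum_range_zero]
      positivity
    | succ T =>
      refine (PS_succ T f).trans ?_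
      have hjL : (((m : ℝ) + 1) / m) ^ j ≤ m / 4 :=
        (pow_le_pow_right₀ hq1 (by omega : j ≤ L)).trans hL
      have h0 : PS T (upd 2 ⊤ f 0) = 0 := PS_of_osc_le T _ (Age_upd_zero hm1 j f hf hjL)
      set e : ℝ := ((m : ℝ) + 1) + (m / ((m : ℝ) + 1)) ^ k * (32 * ((m : ℝ) + 1) * m) with he
      have h1 : ∑ v, PS T (upd 2 ⊤ f v) ≤ m * e := by
        rw [← Finset.add_sum_erase _ _ (Finset.mem_univ (0 : Fin (m + 1))), h0, zero_add]
        have h2 : ∑ v ∈ Finset.univ.erase (0 : Fin (m + 1)), PS T (upd 2 ⊤ f v) ≤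
            ∑ _v ∈ Finset.univ.erase (0 : Fin (m + 1)), e := by
          refine Finset.sum_le_sum fun v hv => ?_
          exact ih (j + 1) (by omega) _ (Age_upd hm1 j f hf v (Finset.ne_of_mem_erase hv)) T
        rw [Finset.sum_const, Finset.card_erase_of_mem (Finset.mem_univ _), Finset.card_univ,
          Fintype.card_fin, nsmul_eq_mul] at h2
        simpa using h2
      have h3 : (∑ v, PS T (upd 2 ⊤ f v)) / ((m : ℝ) + 1) ≤ m * e / ((m : ℝ) + 1) :=
        div_le_div_of_nonneg_right h1 (by positivity)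
      refine (add_le_add le_rfl h3).trans (le_of_eq ?_)
      rw [he, pow_succ]
      field_simp
      ring

/-- the indicator of the vertex `0` -/
def f0 (m : ℕ) : Fin (m + 1) → ℝ := fun w => if w = 0 then 1 else 0

lemma Age_zero : Age 0 (f0 m) := by
  refine ⟨by simp [f0], fun w hw => ?_, ?_⟩
  · simp [f0, hw]
  · simp [f0]

lemma PS_f0 (hm : 4 ≤ m) (T : ℕ) : PS T (f0 m) ≤ 129 * ((m : ℝ) + 1) := by
  have hm' : (4 : ℝ) ≤ m := by exact_mod_cast hm
  have hm0 : (0 : ℝ) < m := by linarith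
  have hq1 : 1 < ((m : ℝ) + 1) / m := by rw [lt_div_iff₀ hm0]; linarith
  have hex : ∃ j : ℕ, (m : ℝ) / 4 < (((m : ℝ) + 1) / m) ^ j := pow_unbounded_of_one_lt _ hq1
  classical
  set j0 := Nat.find hex with hj0
  have h1 : (m : ℝ) / 4 < (((m : ℝ) + 1) / m) ^ j0 := Nat.find_spec hex
  have hj0pos : j0 ≠ 0 := by
    intro h
    rw [h, pow_zero] at h1
    linarith
  obtain ⟨L, hL⟩ : ∃ L, j0 = L + 1 := ⟨j0 - 1, by omega⟩
  have h2 : (((m : ℝ) + 1) / m) ^ L ≤ m / 4 := by
    have := Nat.find_min hex (m := L) (by rw [← hj0, hL]; omega)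
    push Not at this
    exact this
  have h3 := PS_age hm L h2 (L + 1) 0 (by omega) (f0 m) Age_zero T
  refine h3.trans ?_
  rw [hL] at h1
  have h4 : (m / ((m : ℝ) + 1)) ^ (L + 1) * (((m : ℝ) + 1) / m) ^ (L + 1) = 1 := by
    rw [← mul_pow]
    have : (m : ℝ) / (m + 1) * ((m + 1) / m) = 1 := by field_simp
    rw [this, one_pow]
  have h5 : (m / ((m : ℝ) + 1)) ^ (L + 1) * m ≤ 4 := by
    have h6 : 0 ≤ (m / ((m : ℝ) + 1)) ^ (L + 1) := by positivity
    nlinarith
  have h7 : (m / ((m : ℝ) + 1)) ^ (L + 1) * (32 * ((m : ℝ) + 1) * m) =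
      32 * ((m : ℝ) + 1) * ((m / ((m : ℝ) + 1)) ^ (L + 1) * m) := by ring
  rw [h7]
  nlinarith

lemma expTime_two_le (hm : 4 ≤ m) :
    expTime 2 ⊤ (1 / 4) (f0 m) ≤ ENNReal.ofReal (129 * ((m : ℝ) + 1)) := by
  unfold expTime
  refine ENNReal.tsum_le_of_sum_range_le fun T => ?_
  rw [← ENNReal.ofReal_sum_of_nonneg fun t _ => tail_nonneg _ _ _ _ _]
  exact ENNReal.ofReal_le_ofReal (PS_f0 hm T)

end two

/-! ### the complete graph, large `p` -/

section large

variable {m : ℕ}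

/-- the large exponent `2 m + 2` -/
noncomputable def pl (m : ℕ) : ℝ := ((2 * m + 2 : ℕ) : ℝ)

lemma energy_pl (f : Fin (m + 1) → ℝ) (v : Fin (m + 1)) (y : ℝ) :
    energy (pl m) ⊤ f v y = ∑ w ∈ Finset.univ.erase v, (y - f w) ^ (2 * m + 2) := by
  rw [energy_top]
  refine Finset.sum_congr rfl fun w _ => ?_
  unfold pl
  rw [Real.rpow_natCast, Even.pow_abs ⟨m + 1, by ring⟩]

lemma energy_min (hm : 1 ≤ m) (f : Fin (m + 1) → ℝ) (v : Fin (m + 1)) :
    ∃ y, ∀ z, energy (pl m) ⊤ f v y ≤ energy (pl m) ⊤ f v z := by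
  have e : energy (pl m) ⊤ f v =
      fun y => ∑ w ∈ Finset.univ.erase v, (y - f w) ^ (2 * m + 2) := by
    funext y; exact energy_pl f v y
  rw [e]
  obtain ⟨u, hu⟩ : (Finset.univ.erase v).Nonempty := by
    rw [← Finset.card_pos, Finset.card_erase_of_mem (Finset.mem_univ v), Finset.card_univ,
      Fintype.card_fin]
    omega
  refine Continuous.exists_forall_le (by fun_prop) ?_
  have h1 : Filter.Tendsto (fun y : ℝ => (‖y‖ - |f u|)) (Filter.cocompact ℝ) Filter.atTop := by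
    have := tendsto_norm_cocompact_atTop (E := ℝ)
    exact Filter.tendsto_atTop_add_const_right _ (-|f u|) this
  refine Filter.tendsto_atTop_mono' _ ?_ h1
  have h2 : ∀ᶠ y : ℝ in Filter.cocompact ℝ, 1 ≤ ‖y‖ - |f u| := h1.eventually_ge_atTop 1
  filter_upwards [h2] with y hy
  have h3 : ‖y‖ - |f u| ≤ |y - f u| := by
    rw [Real.norm_eq_abs]; exact abs_sub_abs_le_abs_sub y (f u)
  have h4 : (1 : ℝ) ≤ |y - f u| := hy.trans h3
  have h5 : |y - f u| ≤ |y - f u| ^ (2 * m + 2) := le_self_pow₀ h4 (by omega)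
  rw [Even.pow_abs ⟨m + 1, by ring⟩] at h5
  refine h3.trans (h5.trans ?_)
  exact Finset.single_le_sum (f := fun w => (y - f w) ^ (2 * m + 2))
    (fun w _ => Even.pow_nonneg ⟨m + 1, by ring⟩ _) hu

/-- the key lower bound for the update with a large exponent -/
lemma upd_large (hm : 1 ≤ m) (f : Fin (m + 1) → ℝ) (h0 : f 0 = 1) (hf : ∀ w, 0 ≤ f w)
    (v : Fin (m + 1)) (hv : v ≠ 0) : 1 / 3 ≤ upd (pl m) ⊤ f v v := by
  unfold upd
  rw [Function.update_self]
  have hspec := Classical.epsilon_spec (energy_min hm f v)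
  set y := Classical.epsilon fun y => ∀ z, energy (pl m) ⊤ f v y ≤ energy (pl m) ⊤ f v z with hy
  -- derivative zero
  have hder : HasDerivAt (fun z => ∑ w ∈ Finset.univ.erase v, (z - f w) ^ (2 * m + 2))
      (∑ w ∈ Finset.univ.erase v, ((2 * m + 2 : ℕ) : ℝ) * (y - f w) ^ (2 * m + 1)) y := by
    refine HasDerivAt.fun_sum fun w _ => ?_
    have h1 : HasDerivAt (fun z : ℝ => z - f w) 1 y := (hasDerivAt_id y).sub_const (f w)
    have h2 := h1.fun_pow (2 * m + 2)
    simpa using h2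
  have hmin : IsLocalMin (fun z => ∑ w ∈ Finset.univ.erase v, (z - f w) ^ (2 * m + 2)) y := by
    refine Filter.Eventually.of_forall fun z => ?_
    have := hspec z
    rw [energy_pl, energy_pl] at this
    exact this
  have hzero := hmin.hasDerivAt_eq_zero hder
  rw [← Finset.mul_sum] at hzero
  have hsum : ∑ w ∈ Finset.univ.erase v, (y - f w) ^ (2 * m + 1) = 0 := by
    rcases mul_eq_zero.1 hzero with h | h
    · exfalso
      have : (0 : ℝ) < ((2 * m + 2 : ℕ) : ℝ) := by positivity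
      linarith
    · exact h
  have hodd : Odd (2 * m + 1) := ⟨m, rfl⟩
  have hmono := hodd.strictMono_pow (R := ℝ)
  have h0mem : (0 : Fin (m + 1)) ∈ Finset.univ.erase v :=
    Finset.mem_erase.2 ⟨hv.symm, Finset.mem_univ _⟩
  rw [← Finset.add_sum_erase _ _ h0mem, h0] at hsum
  have hle : ∑ w ∈ (Finset.univ.erase v).erase 0, (y - f w) ^ (2 * m + 1) ≤
      ∑ _w ∈ (Finset.univ.erase v).erase (0 : Fin (m + 1)), y ^ (2 * m + 1) := by
    refine Finset.sum_le_sum fun w _ => ?_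
    exact hmono.monotone (by linarith [hf w] : y - f w ≤ y)
  rw [Finset.sum_const, Finset.card_erase_of_mem h0mem,
    Finset.card_erase_of_mem (Finset.mem_univ v), Finset.card_univ, Fintype.card_fin,
    nsmul_eq_mul] at hle
  have hneg : (1 - y) ^ (2 * m + 1) = -((y - 1) ^ (2 * m + 1)) := by
    rw [← hodd.neg_pow]; congr 1; ring
  have hkey : (1 - y) ^ (2 * m + 1) ≤ ((m + 1 - 1 - 1 : ℕ) : ℝ) * y ^ (2 * m + 1) := by
    rw [hneg]; linarith
  have hy0 : 0 ≤ y := by
    by_contra hneg'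
    push Not at hneg'
    have h1 : y ^ (2 * m + 1) < 0 := hodd.pow_neg hneg'
    have h2 : (0 : ℝ) < (1 - y) ^ (2 * m + 1) := pow_pos (by linarith) _
    have h3 : (0 : ℝ) ≤ ((m + 1 - 1 - 1 : ℕ) : ℝ) := by positivity
    nlinarith
  have hcoef : ((m + 1 - 1 - 1 : ℕ) : ℝ) ≤ 2 ^ (2 * m + 1) := by
    have h1 : m + 1 - 1 - 1 ≤ 2 * m + 1 := by omega
    have h2 : 2 * m + 1 < 2 ^ (2 * m + 1) := Nat.lt_two_pow_self
    exact_mod_cast (h1.trans h2.le)
  have hfin : (1 - y) ^ (2 * m + 1) ≤ (2 * y) ^ (2 * m + 1) := by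
    rw [mul_pow]
    refine hkey.trans (mul_le_mul_of_nonneg_right hcoef (pow_nonneg hy0 _))
  have := hmono.le_iff_le.1 hfin
  linarith

lemma upd_ne (p : ℝ) (G : SimpleGraph (Fin (m + 1))) (f : Fin (m + 1) → ℝ) (v w : Fin (m + 1))
    (h : w ≠ v) : upd p G f v w = f w := by
  unfold upd
  rw [Function.update_of_ne h]

lemma foldl_ne (p : ℝ) (G : SimpleGraph (Fin (m + 1))) (l : List (Fin (m + 1))) :
    ∀ (f : Fin (m + 1) → ℝ) (w : Fin (m + 1)), w ∉ l → l.foldl (upd p G) f w = f w := by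
  induction l with
  | nil => intro f w _; rfl
  | cons v l ih =>
    intro f w hw
    rw [List.mem_cons, not_or] at hw
    rw [List.foldl_cons, ih _ w hw.2, upd_ne p G f v w hw.1]

lemma phase1 (hm : 1 ≤ m) (l : List (Fin (m + 1))) : ∀ f : Fin (m + 1) → ℝ, f 0 = 1 →
    (∀ w, 0 ≤ f w) → (0 : Fin (m + 1)) ∉ l →
    (∀ w, (w ∈ l ∨ 1 / 3 ≤ f w) → 1 / 3 ≤ l.foldl (upd (pl m) ⊤) f w) := by
  induction l with
  | nil =>
    intro f _ _ _ w hw
    rcases hw with hw | hw
    · exact absurd hw (by simp)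
    · exact hw
  | cons v l ih =>
    intro f h0 hf h0l w hw
    rw [List.mem_cons, not_or] at h0l
    rw [List.foldl_cons]
    have hup := upd_large hm f h0 hf v (fun h => h0l.1 h.symm)
    refine ih _ ?_ ?_ h0l.2 w ?_
    · rw [upd_ne _ _ _ _ _ h0l.1]; exact h0
    · intro u
      by_cases hu : u = v
      · rw [hu]; linarith
      · rw [upd_ne _ _ _ _ _ hu]; exact hf u
    · by_cases hwv : w = v
      · right; rw [hwv]; exact hup
      · rcases hw with hw | hw
        · rw [List.mem_cons] at hw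
          rcases hw with hw | hw
          · exact absurd hw hwv
          · exact Or.inl hw
        · right; rw [upd_ne _ _ _ _ _ hwv]; exact hw

lemma f0_nonneg (w : Fin (m + 1)) : 0 ≤ f0 m w := by unfold f0; split_ifs <;> norm_num

/-- the event that forces a large oscillation up to time `n + s` -/
lemma event_osc (hm : 1 ≤ m) {n s : ℕ} (α : Fin n → Fin (m + 1)) (β : Fin s → Fin (m + 1))
    (a b : Fin (m + 1)) (hb0 : b ≠ 0) (hα0 : ∀ i, α i ≠ 0) (haα : ∃ i, α i = a)
    (hbα : ∀ i, α i ≠ b) (haβ : ∀ i, β i ≠ a) (hbβ : ∀ i, β i ≠ b) (t : ℕ) :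
    1 / 4 < osc (profile (pl m) ⊤ (f0 m) (Fin.append α β) t) := by
  have hbl : b ∉ (List.ofFn (Fin.append α β)).take t := by
    intro h
    have h1 := List.mem_of_mem_take h
    rw [List.ofFn_fin_append, List.mem_append, List.mem_ofFn, List.mem_ofFn] at h1
    rcases h1 with ⟨i, hi⟩ | ⟨i, hi⟩
    · exact hbα i hi
    · exact hbβ i hi
  have hb : profile (pl m) ⊤ (f0 m) (Fin.append α β) t b = 0 := by
    unfold profile
    rw [foldl_ne _ _ _ _ b hbl]
    unfold f0
    rw [if_neg hb0]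
  have h0α : (0 : Fin (m + 1)) ∉ List.ofFn α := by
    intro h
    rw [List.mem_ofFn] at h
    obtain ⟨i, hi⟩ := h
    exact hα0 i hi
  by_cases ht : t ≤ n
  · have h0l : (0 : Fin (m + 1)) ∉ (List.ofFn (Fin.append α β)).take t := by
      rw [List.ofFn_fin_append, List.take_append_of_le_length (by simpa using ht)]
      exact fun h => h0α (List.mem_of_mem_take h)
    have h0 : profile (pl m) ⊤ (f0 m) (Fin.append α β) t 0 = 1 := by
      unfold profile
      rw [foldl_ne _ _ _ _ 0 h0l]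
      simp [f0]
    have := osc_ge (profile (pl m) ⊤ (f0 m) (Fin.append α β) t) 0 b
    rw [h0, hb] at this
    linarith
  · have ha : 1 / 3 ≤ profile (pl m) ⊤ (f0 m) (Fin.append α β) t a := by
      unfold profile
      rw [List.ofFn_fin_append, List.take_append, List.take_of_length_le (by simp; omega),
        List.foldl_append, foldl_ne]
      · refine phase1 hm _ _ (by simp [f0]) f0_nonneg h0α a (Or.inl ?_)
        rw [List.mem_ofFn]; exact haα
      · intro h
        have h1 := List.mem_of_mem_take h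
        rw [List.mem_ofFn] at h1
        obtain ⟨i, hi⟩ := h1
        exact haβ i hi
    have := osc_ge (profile (pl m) ⊤ (f0 m) (Fin.append α β) t) a b
    rw [hb] at this
    linarith

end large

/-! ### counting sequences -/

section counting

variable {m : ℕ}

/-- the number of sequences avoiding a set -/
lemma card_avoid (n : ℕ) (B : Finset (Fin (m + 1))) :
    (Finset.univ.filter fun α : Fin n → Fin (m + 1) => ∀ i, α i ∉ B).card =
      (m + 1 - B.card) ^ n := by
  have : (Finset.univ.filter fun α : Fin n → Fin (m + 1) => ∀ i, α i ∉ B) =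
      Fintype.piFinset (fun _ : Fin n => (Finset.univ \ B : Finset (Fin (m + 1)))) := by
    ext α
    simp [Fintype.mem_piFinset]
  rw [this, Fintype.card_piFinset_const, Finset.card_sdiff_of_subset (Finset.subset_univ B),
    Finset.card_univ, Fintype.card_fin]

/-- vertices other than `0` that are never updated along `β` -/
def U {s : ℕ} (β : Fin s → Fin (m + 1)) : Finset (Fin (m + 1)) :=
  Finset.univ.filter fun a => a ≠ 0 ∧ ∀ i, β i ≠ a

lemma sum_U (s : ℕ) : ∑ β : Fin s → Fin (m + 1), ((U β).card : ℝ) = m * (m : ℝ) ^ s := by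
  have h1 : ∀ β : Fin s → Fin (m + 1), ((U β).card : ℝ) =
      ∑ a ∈ Finset.univ.erase (0 : Fin (m + 1)), if ∀ i, β i ≠ a then (1 : ℝ) else 0 := by
    intro β
    rw [Finset.sum_boole]
    congr 2
    unfold U
    ext a
    simp [Finset.mem_filter, Finset.mem_erase]
  rw [Finset.sum_congr rfl fun β _ => h1 β, Finset.sum_comm]
  have h2 : ∀ a ∈ Finset.univ.erase (0 : Fin (m + 1)),
      ∑ β : Fin s → Fin (m + 1), (if ∀ i, β i ≠ a then (1 : ℝ) else 0) = (m : ℝ) ^ s := by
    intro a _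
    rw [Finset.sum_boole]
    have := card_avoid (m := m) s {a}
    simp only [Finset.mem_singleton, Finset.card_singleton] at this
    rw [this]
    simp
  rw [Finset.sum_congr rfl h2, Finset.sum_const, Finset.card_erase_of_mem (Finset.mem_univ _),
    Finset.card_univ, Fintype.card_fin, nsmul_eq_mul]
  simp

lemma sum_U_sq (hm : 1 ≤ m) (s : ℕ) : ∑ β : Fin s → Fin (m + 1), ((U β).card : ℝ) ^ 2 =
    m * (m : ℝ) ^ s + m * ((m : ℝ) - 1) * ((m : ℝ) - 1) ^ s := by
  have h1 : ∀ β : Fin s → Fin (m + 1), ((U β).card : ℝ) ^ 2 =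
      ∑ a ∈ Finset.univ.erase (0 : Fin (m + 1)), ∑ b ∈ Finset.univ.erase (0 : Fin (m + 1)),
        if ∀ i, β i ∉ ({a, b} : Finset (Fin (m + 1))) then (1 : ℝ) else 0 := by
    intro β
    have h0 : ((U β).card : ℝ) =
        ∑ a ∈ Finset.univ.erase (0 : Fin (m + 1)), if ∀ i, β i ≠ a then (1 : ℝ) else 0 := by
      rw [Finset.sum_boole]
      congr 2
      unfold U
      ext a
      simp [Finset.mem_filter, Finset.mem_erase]
    rw [sq, h0, Finset.sum_mul_sum]
    refine Finset.sum_congr rfl fun a _ => Finset.sum_congr rfl fun b _ => ?_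
    have hiff : (∀ i, β i ∉ ({a, b} : Finset (Fin (m + 1)))) ↔
        (∀ i, β i ≠ a) ∧ ∀ i, β i ≠ b := by
      constructor
      · intro h
        exact ⟨fun i hi => h i (by rw [hi]; exact Finset.mem_insert_self _ _),
          fun i hi => h i (by
            rw [hi]; exact Finset.mem_insert_of_mem (Finset.mem_singleton_self _))⟩
      · rintro ⟨h1, h2⟩ i hi
        rw [Finset.mem_insert, Finset.mem_singleton] at hi
        rcases hi with hi | hi
        · exact h1 i hi
        · exact h2 i hi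
    by_cases hA : ∀ i, β i ≠ a
    · by_cases hB : ∀ i, β i ≠ b
      · rw [if_pos hA, if_pos hB, if_pos (hiff.2 ⟨hA, hB⟩), one_mul]
      · rw [if_pos hA, if_neg hB, if_neg (fun h => hB (hiff.1 h).2), mul_zero]
    · rw [if_neg hA, if_neg (fun h => hA (hiff.1 h).1), zero_mul]
  rw [Finset.sum_congr rfl fun β _ => h1 β, Finset.sum_comm]
  have h2 : ∀ a ∈ Finset.univ.erase (0 : Fin (m + 1)), ∑ β : Fin s → Fin (m + 1),
      ∑ b ∈ Finset.univ.erase (0 : Fin (m + 1)),
        (if ∀ i, β i ∉ ({a, b} : Finset (Fin (m + 1))) then (1 : ℝ) else 0) =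
      (m : ℝ) ^ s + ((m : ℝ) - 1) * ((m : ℝ) - 1) ^ s := by
    intro a ha
    rw [Finset.sum_comm, ← Finset.add_sum_erase _ _ ha]
    have h3 : ∑ β : Fin s → Fin (m + 1),
        (if ∀ i, β i ∉ ({a, a} : Finset (Fin (m + 1))) then (1 : ℝ) else 0) = (m : ℝ) ^ s := by
      rw [Finset.sum_boole, card_avoid]
      simp
    have h4 : ∀ b ∈ (Finset.univ.erase (0 : Fin (m + 1))).erase a, ∑ β : Fin s → Fin (m + 1),
        (if ∀ i, β i ∉ ({a, b} : Finset (Fin (m + 1))) then (1 : ℝ) else 0) =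
          ((m : ℝ) - 1) ^ s := by
      intro b hb
      rw [Finset.sum_boole, card_avoid, Finset.card_pair (Finset.ne_of_mem_erase hb).symm]
      have : ((m + 1 - 2 : ℕ) : ℝ) = (m : ℝ) - 1 := by
        have : m + 1 - 2 = m - 1 := by omega
        rw [this, Nat.cast_sub hm]; simp
      rw [Nat.cast_pow, this]
    rw [h3, Finset.sum_congr rfl h4, Finset.sum_const, Finset.card_erase_of_mem ha,
      Finset.card_erase_of_mem (Finset.mem_univ _), Finset.card_univ, Fintype.card_fin,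
      nsmul_eq_mul]
    have : ((m + 1 - 1 - 1 : ℕ) : ℝ) = (m : ℝ) - 1 := by
      have : m + 1 - 1 - 1 = m - 1 := by omega
      rw [this, Nat.cast_sub hm]; simp
    rw [this]
  rw [Finset.sum_congr rfl h2, Finset.sum_const, Finset.card_erase_of_mem (Finset.mem_univ _),
    Finset.card_univ, Fintype.card_fin, nsmul_eq_mul]
  simp
  ring

/-- at least half of the sequences miss two vertices other than `0` -/
lemma half_good (hm : 1 ≤ m) (s : ℕ) (hμ : 5 ≤ (m : ℝ) * ((m : ℝ) / (m + 1)) ^ s) :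
    ((m : ℝ) + 1) ^ s / 2 ≤
      ((Finset.univ.filter fun β : Fin s → Fin (m + 1) => 2 ≤ (U β).card).card : ℝ) := by
  set μ : ℝ := (m : ℝ) * ((m : ℝ) / (m + 1)) ^ s with hμd
  have hm' : (1 : ℝ) ≤ m := by exact_mod_cast hm
  have hN : (0 : ℝ) < ((m : ℝ) + 1) ^ s := by positivity
  have hs1 : ∑ β : Fin s → Fin (m + 1), ((U β).card : ℝ) = μ * ((m : ℝ) + 1) ^ s := by
    rw [sum_U, hμd, div_pow]; field_simp
  have hs2 : ∑ β : Fin s → Fin (m + 1), ((U β).card : ℝ) ^ 2 ≤
      (μ + μ ^ 2) * ((m : ℝ) + 1) ^ s := by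
    rw [sum_U_sq hm]
    have h1 : m * (m : ℝ) ^ s = μ * ((m : ℝ) + 1) ^ s := by rw [hμd, div_pow]; field_simp
    have h2 : (m : ℝ) * ((m : ℝ) - 1) * ((m : ℝ) - 1) ^ s ≤ μ ^ 2 * ((m : ℝ) + 1) ^ s := by
      have h3 : ((m : ℝ) - 1) ^ s ≤ (((m : ℝ) / (m + 1)) ^ 2 * (m + 1)) ^ s := by
        refine pow_le_pow_left₀ (by linarith) ?_ s
        have : ((m : ℝ) / (m + 1)) ^ 2 * (m + 1) = m ^ 2 / (m + 1) := by field_simp
        rw [this, le_div_iff₀ (by linarith)]
        nlinarith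
      have h4 : μ ^ 2 * ((m : ℝ) + 1) ^ s = m ^ 2 * (((m : ℝ) / (m + 1)) ^ 2 * (m + 1)) ^ s := by
        rw [hμd, mul_pow, mul_pow, ← pow_mul, ← pow_mul, mul_comm s 2]; ring
      rw [h4]
      have h5 : (0 : ℝ) ≤ ((m : ℝ) - 1) ^ s := pow_nonneg (by linarith) s
      have h6 : (m : ℝ) * ((m : ℝ) - 1) ≤ m ^ 2 := by nlinarith
      calc (m : ℝ) * ((m : ℝ) - 1) * ((m : ℝ) - 1) ^ s ≤ m ^ 2 * ((m : ℝ) - 1) ^ s :=
            mul_le_mul_of_nonneg_right h6 h5
        _ ≤ _ := mul_le_mul_of_nonneg_left h3 (by positivity)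
    rw [h1]; linarith
  have hcardN : ((Finset.univ : Finset (Fin s → Fin (m + 1))).card : ℝ) = ((m : ℝ) + 1) ^ s := by
    rw [Finset.card_univ, Fintype.card_fun, Fintype.card_fin, Fintype.card_fin]; push_cast; rfl
  have hvar : ∑ β : Fin s → Fin (m + 1), (((U β).card : ℝ) - μ) ^ 2 ≤
      μ * ((m : ℝ) + 1) ^ s := by
    have e : ∀ β : Fin s → Fin (m + 1), (((U β).card : ℝ) - μ) ^ 2 =
        ((U β).card : ℝ) ^ 2 - 2 * μ * ((U β).card : ℝ) + μ ^ 2 := by intro β; ring
    rw [Finset.sum_congr rfl fun β _ => e β, Finset.sum_add_distrib, Finset.sum_sub_distrib,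
      ← Finset.mul_sum, hs1, Finset.sum_const, nsmul_eq_mul, hcardN]
    nlinarith
  have hpt : ∀ β : Fin s → Fin (m + 1),
      1 - (((U β).card : ℝ) - μ) ^ 2 / (μ - 1) ^ 2 ≤ if 2 ≤ (U β).card then 1 else 0 := by
    intro β
    have h1 : 0 < (μ - 1) ^ 2 := by
      have : 0 < μ - 1 := by linarith
      positivity
    split_ifs with h
    · have : 0 ≤ (((U β).card : ℝ) - μ) ^ 2 / (μ - 1) ^ 2 := by positivity
      linarith
    · have h2 : ((U β).card : ℝ) ≤ 1 := by
        have : (U β).card ≤ 1 := by omega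
        exact_mod_cast this
      have h3 : (μ - 1) ^ 2 ≤ (((U β).card : ℝ) - μ) ^ 2 := by nlinarith
      have h4 : 1 ≤ (((U β).card : ℝ) - μ) ^ 2 / (μ - 1) ^ 2 := by
        rw [le_div_iff₀ h1, one_mul]; exact h3
      linarith
  have hsum := Finset.sum_le_sum fun β (_ : β ∈ (Finset.univ : Finset (Fin s → Fin (m + 1)))) =>
    hpt β
  rw [Finset.sum_sub_distrib, ← Finset.sum_div, Finset.sum_const, nsmul_eq_mul, mul_one, hcardN,
    Finset.sum_boole] at hsum
  have h1 : 0 < (μ - 1) ^ 2 := by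
    have : 0 < μ - 1 := by linarith
    positivity
  have h2 : (∑ β : Fin s → Fin (m + 1), (((U β).card : ℝ) - μ) ^ 2) / (μ - 1) ^ 2 ≤
      ((m : ℝ) + 1) ^ s / 2 := by
    rw [div_le_iff₀ h1]
    refine hvar.trans ?_
    have h3 : 2 * μ ≤ (μ - 1) ^ 2 := by nlinarith
    nlinarith
  linarith

/-- the number of good sequences of length `n + s` -/
lemma tail_lower (hm : 3 ≤ m) (n s : ℕ) (hμ : 5 ≤ (m : ℝ) * ((m : ℝ) / (m + 1)) ^ s) :
    ((((m : ℝ) - 1) / (m + 1)) ^ n - (((m : ℝ) - 2) / (m + 1)) ^ n) / 2 ≤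
      tail (pl m) ⊤ (1 / 4) (n + s) (f0 m) := by
  classical
  have hm' : (3 : ℝ) ≤ m := by exact_mod_cast hm
  set G2 : Finset (Fin s → Fin (m + 1)) :=
    Finset.univ.filter fun β : Fin s → Fin (m + 1) => 2 ≤ (U β).card with hG2
  have hhalf := half_good (by omega : 1 ≤ m) s hμ
  rw [← hG2] at hhalf
  -- choose two vertices
  have hch : ∀ β ∈ G2, ∃ a ∈ U β, ∃ b ∈ U β, a ≠ b := by
    intro β hβ
    rw [hG2, Finset.mem_filter] at hβ
    exact Finset.one_lt_card.1 (by omega)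
  choose! ca hca cb hcb hne using hch
  set D : (Fin s → Fin (m + 1)) → Finset (Fin n → Fin (m + 1)) := fun β =>
    (Finset.univ.filter fun α : Fin n → Fin (m + 1) => ∀ i, α i ∉ ({0, cb β} : Finset (Fin (m + 1))))
      \ (Finset.univ.filter fun α : Fin n → Fin (m + 1) =>
        ∀ i, α i ∉ ({0, cb β, ca β} : Finset (Fin (m + 1)))) with hD
  have hDcard : ∀ β ∈ G2, ((D β).card : ℝ) = ((m : ℝ) - 1) ^ n - ((m : ℝ) - 2) ^ n := by
    intro β hβ
    have h1 := (Finset.mem_filter.1 (hca β hβ)).2.1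
    have h2 := (Finset.mem_filter.1 (hcb β hβ)).2.1
    have h3 := hne β hβ
    rw [hD]
    simp only
    rw [Finset.card_sdiff_of_subset, card_avoid, card_avoid, Finset.card_pair h2.symm]
    · have h4 : ({0, cb β, ca β} : Finset (Fin (m + 1))).card = 3 := by
        rw [Finset.card_insert_of_notMem, Finset.card_pair h3.symm]
        rw [Finset.mem_insert, Finset.mem_singleton, not_or]
        exact ⟨h2.symm, h1.symm⟩
      rw [h4, Nat.cast_sub (Nat.pow_le_pow_left (by omega) n)]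
      have e1 : ((m + 1 - 2 : ℕ) : ℝ) = (m : ℝ) - 1 := by
        have : m + 1 - 2 = m - 1 := by omega
        rw [this, Nat.cast_sub (by omega)]; simp
      have e2 : ((m + 1 - 3 : ℕ) : ℝ) = (m : ℝ) - 2 := by
        have : m + 1 - 3 = m - 2 := by omega
        rw [this, Nat.cast_sub (by omega)]; simp
      rw [Nat.cast_pow, Nat.cast_pow, e1, e2]
    · intro α hα
      rw [Finset.mem_filter] at hα ⊢
      refine ⟨Finset.mem_univ _, fun i hi => hα.2 i ?_⟩
      rw [Finset.mem_insert, Finset.mem_singleton] at hi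
      rcases hi with hi | hi
      · rw [hi]; simp
      · rw [hi]; simp
  -- the good pairs
  have hcount : (∑ β ∈ G2, ((D β).card : ℝ)) ≤
      ((Finset.univ.filter fun ω : Fin (n + s) → Fin (m + 1) =>
        ∀ t ≤ n + s, 1 / 4 < osc (profile (pl m) ⊤ (f0 m) ω t)).card : ℝ) := by
    have h1 : (∑ β ∈ G2, (D β).card) = (G2.sigma D).card := by rw [Finset.card_sigma]
    have h2 : (G2.sigma D).card ≤ (Finset.univ.filter fun ω : Fin (n + s) → Fin (m + 1) =>
        ∀ t ≤ n + s, 1 / 4 < osc (profile (pl m) ⊤ (f0 m) ω t)).card := by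
      refine Finset.card_le_card_of_injOn (fun x => Fin.append x.2 x.1) ?_ ?_
      · rintro ⟨β, α⟩ hx
        rw [Finset.mem_coe, Finset.mem_sigma] at hx
        obtain ⟨hβ, hα⟩ := hx
        simp only at hβ hα
        rw [hD] at hα
        simp only [Finset.mem_sdiff, Finset.mem_filter, Finset.mem_univ, true_and] at hα
        obtain ⟨hα1, hα2⟩ := hα
        obtain ⟨-, ha0, haβ⟩ := Finset.mem_filter.1 (hca β hβ)
        obtain ⟨-, hb0, hbβ⟩ := Finset.mem_filter.1 (hcb β hβ)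
        rw [Finset.mem_coe, Finset.mem_filter]
        refine ⟨Finset.mem_univ _, fun t _ => ?_⟩
        push Not at hα2
        obtain ⟨i, hi⟩ := hα2
        have hi2 := hα1 i
        simp only [Finset.mem_insert, Finset.mem_singleton, not_or] at hi hi2
        refine event_osc (by omega) α β (ca β) (cb β) hb0 (fun j h => ?_) ⟨i, ?_⟩ (fun j h => ?_)
          haβ hbβ t
        · exact hα1 j (by rw [h]; simp)
        · rcases hi with h | h | h
          · exact absurd h hi2.1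
          · exact absurd h hi2.2
          · exact h
        · exact hα1 j (by rw [h]; simp)
      · rintro ⟨β, α⟩ _ ⟨β', α'⟩ _ h
        simp only at h
        have h3 := (Fin.appendEquiv (α := Fin (m + 1)) n s).injective
          (a₁ := (α, β)) (a₂ := (α', β')) h
        rw [Prod.mk.injEq] at h3
        rw [h3.1, h3.2]
    rw [← Nat.cast_sum, h1]
    exact_mod_cast h2
  rw [Finset.sum_congr rfl hDcard, Finset.sum_const, nsmul_eq_mul] at hcount
  unfold tail
  rw [le_div_iff₀ (by positivity)]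
  refine le_trans ?_ hcount
  rw [Fintype.card_fin, pow_add]
  push_cast
  have h5 : ((((m : ℝ) - 1) / (m + 1)) ^ n - (((m : ℝ) - 2) / (m + 1)) ^ n) / 2 *
      (((m : ℝ) + 1) ^ n * ((m : ℝ) + 1) ^ s) =
      (((m : ℝ) + 1) ^ s / 2) * (((m : ℝ) - 1) ^ n - ((m : ℝ) - 2) ^ n) := by
    rw [div_pow, div_pow]; field_simp
  rw [h5]
  refine mul_le_mul_of_nonneg_right hhalf ?_
  have : ((m : ℝ) - 2) ^ n ≤ ((m : ℝ) - 1) ^ n := pow_le_pow_left₀ (by linarith) (by linarith) n
  linarith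

end counting

section final

variable {V : Type} [Fintype V] [DecidableEq V] [Nonempty V]

lemma tail_le_one (p : ℝ) (G : SimpleGraph V) (ε : ℝ) (f : V → ℝ) : tail p G ε 0 f ≤ 1 := by
  rw [tail_zero]; split_ifs <;> norm_num

lemma tail_succ_le (p : ℝ) (G : SimpleGraph V) (ε : ℝ) (t : ℕ) :
    ∀ f : V → ℝ, tail p G ε (t + 1) f ≤ tail p G ε t f := by
  have hc : (0 : ℝ) < Fintype.card V := by exact_mod_cast Fintype.card_pos
  induction t with
  | zero =>
    intro f
    rw [tail_succ, tail_zero]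
    split_ifs with h
    · rw [div_le_one hc]
      refine (Finset.sum_le_sum fun v _ => tail_le_one p G ε (upd p G f v)).trans ?_
      rw [Finset.sum_const, Finset.card_univ, nsmul_eq_mul, mul_one]
    · exact le_rfl
  | succ t ih =>
    intro f
    rw [tail_succ, tail_succ]
    split_ifs with h
    · exact div_le_div_of_nonneg_right (Finset.sum_le_sum fun v _ => ih _) hc.le
    · exact le_rfl

lemma expTime_ge (p : ℝ) (G : SimpleGraph V) (ε : ℝ) (f : V → ℝ) (T : ℕ) :
    ENNReal.ofReal (T * tail p G ε T f) ≤ expTime p G ε f := by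
  unfold expTime
  have hanti : Antitone fun t => tail p G ε t f := antitone_nat_of_succ_le fun t =>
    tail_succ_le p G ε t f
  refine le_trans ?_ (ENNReal.sum_le_tsum (Finset.range T))
  rw [← ENNReal.ofReal_sum_of_nonneg fun t _ => tail_nonneg _ _ _ _ _]
  refine ENNReal.ofReal_le_ofReal ?_
  have : ∑ _t ∈ Finset.range T, tail p G ε T f ≤ ∑ t ∈ Finset.range T, tail p G ε t f :=
    Finset.sum_le_sum fun t ht => hanti (Finset.mem_range.1 ht).le
  rw [Finset.sum_const, Finset.card_range, nsmul_eq_mul] at this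
  exact this

end final

/-! ### numerical bounds -/

lemma num1 (m : ℕ) (hm : 41 ≤ m) : (1 : ℝ) / 10 ≤ (((m : ℝ) - 1) / (m + 1)) ^ (m + 1) := by
  have hm' : (41 : ℝ) ≤ m := by exact_mod_cast hm
  have h1 : ((m : ℝ) - 1) / (m + 1) = (1 + 2 / ((m : ℝ) - 1))⁻¹ := by
    have h0 : (m : ℝ) - 1 ≠ 0 := by linarith
    have e : 1 + 2 / ((m : ℝ) - 1) = ((m : ℝ) + 1) / (m - 1) := by
      rw [eq_div_iff h0, add_mul, div_mul_cancel₀ _ h0]; ring
    rw [e, inv_div]
  have h2 : 0 < 1 + 2 / ((m : ℝ) - 1) := by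
    have : 0 < 2 / ((m : ℝ) - 1) := div_pos (by norm_num) (by linarith)
    linarith
  rw [h1, inv_pow]
  have h3 : (1 + 2 / ((m : ℝ) - 1)) ^ (m + 1) ≤ 10 := by
    have h4 : 1 + 2 / ((m : ℝ) - 1) ≤ Real.exp (2 / ((m : ℝ) - 1)) := by
      have := Real.add_one_le_exp (2 / ((m : ℝ) - 1)); linarith
    have h5 : (1 + 2 / ((m : ℝ) - 1)) ^ (m + 1) ≤ Real.exp (2 / ((m : ℝ) - 1)) ^ (m + 1) :=
      pow_le_pow_left₀ h2.le h4 _
    rw [← Real.exp_nat_mul] at h5
    have h6 : ((m + 1 : ℕ) : ℝ) * (2 / ((m : ℝ) - 1)) ≤ 1 + 1 + 1 / 10 := by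
      push_cast
      rw [← mul_div_assoc, div_le_iff₀ (by linarith)]
      linarith
    have h7 : Real.exp (1 + 1 + 1 / 10) ≤ 10 := by
      rw [Real.exp_add, Real.exp_add]
      have e1 : Real.exp 1 < 2.7182818286 := Real.exp_one_lt_d9
      have e0 : 0 < Real.exp 1 := Real.exp_pos 1
      have e2 : Real.exp (1 / 10) ≤ 10 / 9 := by
        have h8 : (1 : ℝ) - 1 / 10 ≤ Real.exp (-(1 / 10)) := by
          have := Real.add_one_le_exp (-(1 / 10 : ℝ)); linarith
        rw [Real.exp_neg] at h8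
        have h9 : 0 < Real.exp (1 / 10) := Real.exp_pos _
        have h10 : (1 - 1 / 10) * Real.exp (1 / 10) ≤ 1 := by
          have := mul_le_mul_of_nonneg_right h8 h9.le
          rwa [inv_mul_cancel₀ h9.ne'] at this
        linarith
      have e3 : Real.exp 1 * Real.exp 1 ≤ 7.4 := by nlinarith
      have h9 : 0 < Real.exp (1 / 10) := Real.exp_pos _
      nlinarith
    exact h5.trans ((Real.exp_le_exp.2 h6).trans h7)
  have h4 : (0 : ℝ) < (1 + 2 / ((m : ℝ) - 1)) ^ (m + 1) := by positivity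
  rw [one_div]
  exact inv_anti₀ h4 h3

lemma num2 (m : ℕ) (hm : 3 ≤ m) : (((m : ℝ) - 2) / (m + 1)) ^ (m + 1) ≤ 1 / 20 := by
  have hm' : (3 : ℝ) ≤ m := by exact_mod_cast hm
  have h1 : ((m : ℝ) - 2) / (m + 1) = 1 - 3 / ((m : ℝ) + 1) := by field_simp; ring
  have h2 : 1 - 3 / ((m : ℝ) + 1) ≤ Real.exp (-(3 / ((m : ℝ) + 1))) := by
    have := Real.add_one_le_exp (-(3 / ((m : ℝ) + 1))); linarith
  have h0 : 0 ≤ 1 - 3 / ((m : ℝ) + 1) := by
    rw [← h1]; exact div_nonneg (by linarith) (by linarith)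
  rw [h1]
  refine (pow_le_pow_left₀ h0 h2 _).trans ?_
  rw [← Real.exp_nat_mul]
  have h3 : ((m + 1 : ℕ) : ℝ) * -(3 / ((m : ℝ) + 1)) = -(1 + 1 + 1) := by
    push_cast; field_simp; ring
  rw [h3, Real.exp_neg, Real.exp_add, Real.exp_add, one_div]
  have e1 : 2.7182818283 < Real.exp 1 := Real.exp_one_gt_d9
  refine inv_anti₀ (by norm_num) ?_
  have e2 : (7.388 : ℝ) ≤ Real.exp 1 * Real.exp 1 := by nlinarith
  nlinarith

lemma num3 (m K : ℕ) (hm : 1 ≤ m) :
    Real.exp (-2) ^ K ≤ ((m : ℝ) / (m + 1)) ^ (K * (m + 1)) := by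
  have hm' : (1 : ℝ) ≤ m := by exact_mod_cast hm
  have hm0 : (0 : ℝ) < m := by linarith
  rw [mul_comm, pow_mul]
  refine pow_le_pow_left₀ (Real.exp_pos _).le ?_ K
  have h1 : (m : ℝ) / (m + 1) = (1 + 1 / (m : ℝ))⁻¹ := by field_simp
  rw [h1, inv_pow]
  have h3 : (1 + 1 / (m : ℝ)) ^ (m + 1) ≤ Real.exp 2 := by
    have h4 : 1 + 1 / (m : ℝ) ≤ Real.exp (1 / m) := by
      have := Real.add_one_le_exp (1 / (m : ℝ)); linarith
    have h5 : (1 + 1 / (m : ℝ)) ^ (m + 1) ≤ Real.exp (1 / m) ^ (m + 1) :=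
      pow_le_pow_left₀ (by positivity) h4 _
    rw [← Real.exp_nat_mul] at h5
    refine h5.trans (Real.exp_le_exp.2 ?_)
    push_cast
    rw [← mul_div_assoc, div_le_iff₀ hm0]
    linarith
  rw [Real.exp_neg]
  exact inv_anti₀ (by positivity) h3

/-- For every constant `C` there are a connected graph, an initial profile with values in `[0,1]`,
`ε > 0` and exponents `1 < p₁ < p₂` with `E τ_{p₂}(ε) > C · E τ_{p₁}(ε)`. -/
theorem result : ∀ C : ℝ, ∃ (n : ℕ) (G : SimpleGraph (Fin n)) (f : Fin n → ℝ) (ε p₁ p₂ : ℝ),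
    1 < n ∧ G.Connected ∧ (∀ v, 0 ≤ f v ∧ f v ≤ 1) ∧ 0 < ε ∧ 1 < p₁ ∧ p₁ < p₂ ∧
    ENNReal.ofReal C * expTime p₁ G ε f < expTime p₂ G ε f := by
  intro C
  obtain ⟨K, hK⟩ := exists_nat_gt (5160 * max C 0)
  have hexp : 0 < Real.exp (-2) ^ K := by positivity
  obtain ⟨m, hm⟩ := exists_nat_gt (max 41 (5 / Real.exp (-2) ^ K))
  have hm41R : (41 : ℝ) < m := lt_of_le_of_lt (le_max_left _ _) hm
  have hm41 : 41 ≤ m := by
    have : (41 : ℝ) ≤ m := hm41R.le
    exact_mod_cast this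
  have hm5 : 5 / Real.exp (-2) ^ K < m := lt_of_le_of_lt (le_max_right _ _) hm
  have hm0 : (0 : ℝ) < m := by linarith
  refine ⟨m + 1, ⊤, f0 m, 1 / 4, 2, pl m, by omega, ?_, ?_, by norm_num, by norm_num, ?_, ?_⟩
  · exact SimpleGraph.connected_top
  · intro v
    unfold f0
    split_ifs <;> norm_num
  · unfold pl
    push_cast
    linarith
  · have hμ : 5 ≤ (m : ℝ) * ((m : ℝ) / (m + 1)) ^ (K * (m + 1)) := by
      have h1 := num3 m K (by omega)
      rw [div_lt_iff₀ hexp] at hm5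
      have h2 := mul_le_mul_of_nonneg_left h1 hm0.le
      linarith
    have hlow := tail_lower (by omega : 3 ≤ m) (m + 1) (K * (m + 1)) hμ
    have h10 := num1 m hm41
    have h20 := num2 m (by omega)
    have h40 : (1 : ℝ) / 40 ≤ tail (pl m) ⊤ (1 / 4) (m + 1 + K * (m + 1)) (f0 m) := by linarith
    have hT := expTime_ge (pl m) (⊤ : SimpleGraph (Fin (m + 1))) (1 / 4) (f0 m)
      (m + 1 + K * (m + 1))
    refine lt_of_lt_of_le ?_ hT
    have hup := expTime_two_le (m := m) (by omega)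
    have hC : ENNReal.ofReal C ≤ ENNReal.ofReal (max C 0) :=
      ENNReal.ofReal_le_ofReal (le_max_left _ _)
    have hC0 : 0 ≤ max C 0 := le_max_right _ _
    refine lt_of_le_of_lt (mul_le_mul' hC hup) ?_
    rw [← ENNReal.ofReal_mul hC0]
    have hpos : (0 : ℝ) < ((m + 1 + K * (m + 1) : ℕ) : ℝ) *
        tail (pl m) ⊤ (1 / 4) (m + 1 + K * (m + 1)) (f0 m) := by
      have h1 : (0 : ℝ) < ((m + 1 + K * (m + 1) : ℕ) : ℝ) := by positivity
      have h2 : 0 < tail (pl m) ⊤ (1 / 4) (m + 1 + K * (m + 1)) (f0 m) := by linarith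
      exact mul_pos h1 h2
    rw [ENNReal.ofReal_lt_ofReal_iff hpos]
    have h1 : ((m + 1 + K * (m + 1) : ℕ) : ℝ) = ((K : ℝ) + 1) * ((m : ℝ) + 1) := by
      push_cast; ring
    rw [h1]
    have h2 : ((K : ℝ) + 1) * ((m : ℝ) + 1) * (1 / 40) ≤ ((K : ℝ) + 1) * ((m : ℝ) + 1) *
        tail (pl m) ⊤ (1 / 4) (m + 1 + K * (m + 1)) (f0 m) :=
      mul_le_mul_of_nonneg_left h40 (by positivity)
    refine lt_of_lt_of_le ?_ h2
    have h3 : max C 0 * 5160 * ((m : ℝ) + 1) < ((K : ℝ) + 1) * ((m : ℝ) + 1) :=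
      mul_lt_mul_of_pos_right (by linarith) (by linarith)
    linarith

end Pool.Agent.Results.MP_7677b2_pr.NoComparison
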